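import Pool.Agent.J4.H86.CR.EssCurve
import Pool.Agent.H307R3.RO.Fin

/-!
# MP_49c4d9_an: reductive operators, two growth conditions for the resolvent

Let `T` be reductive, for example such that `T` itself or `p(T)`, `p` a nonconstant polynomial, satisfies the following two
conditions (`R` is `T`, or `p(T)`, or a coefficient of a polynomial relation for `T` modulo the compact
operators): the spectrum of `R` is a null set,

(a) `log⁺ ‖(z - R)⁻¹‖` is integrable near the spectrum, or the spectrum is on a rectifiable curve and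
`‖(z - R)⁻¹‖ ≤ exp (C / dist ^ A)` (any `A`),

(b) some power, with a positive exponent, of the essential norm of `(z - R)⁻¹` is integrable near the spectrum, or
the spectrum is on a rectifiable curve and the essential norm is at most `C / dist ^ k`.

Then `T` is normal. Neither the self-commutator of `T` nor anything else is compact or close to a normal
operator. The proof is in the library `Pool.Agent.J4.H86.CR`, see the file `ReductiveGeneralizedScalar`. The new
points are these. For a reductive `T` and the von Neumann algebra `𝒩` of the commutant of `T`, condition (b) bounds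
the norms of the resolvents of `R` on the part of the space where `𝒩` has no compact operators, and there `R` is
normal by the theorem on local resolvents. On the rest, `V` is a minimal subspace in the minimal dimension
argument, and if `R` is not scalar on `V` then (a) gives a hyperinvariant subspace of the restriction of `R` to
`V` if it has more than one point of spectrum, and (b) shows that some power of `R - c` is compact on `V` if
the spectrum is `{c}`.
-/

set_option autoImplicit false

open Metric MeasureTheory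
open scoped InnerProductSpace

namespace Pool.Agent.J4.H86.Old.ReductiveEssentialGrowth

/-- `T` is reductive: every closed invariant subspace of `T` is invariant under the adjoint. -/
def Reductive {H : Type} [NormedAddCommGroup H] [InnerProductSpace ℂ H] [CompleteSpace H]
    (T : H →L[ℂ] H) : Prop :=
  ∀ V : Submodule ℂ H, IsClosed (V : Set H) → (∀ x ∈ V, T x ∈ V) →
    ∀ x ∈ V, ContinuousLinearMap.adjoint T x ∈ V

/-- The essential norm of `A`: the distance from `A` to the compact operators. -/
noncomputable def essNorm {H : Type} [NormedAddCommGroup H] [InnerProductSpace ℂ H]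
    (A : H →L[ℂ] H) : ℝ :=
  sInf {r : ℝ | ∃ K : H →L[ℂ] H, IsCompactOperator K ∧ r = ‖A - K‖}

/-- `Γ` is a rectifiable curve: the image of `[0,1]` under a Lipschitz map. -/
def RectifiableCurve (Γ : Set ℂ) : Prop :=
  ∃ (γ : ℝ → ℂ) (L : NNReal), LipschitzWith L γ ∧ Γ = γ '' Set.Icc 0 1

/-- Condition (a): `log⁺` of the norm of the resolvent is integrable near the spectrum, or the spectrum is
on a rectifiable curve and the resolvent has finite exponential order at the curve. -/
def LogGrowth {H : Type} [NormedAddCommGroup H] [InnerProductSpace ℂ H] (Z : H →L[ℂ] H) : Prop :=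
  (∃ U : Set ℂ, IsOpen U ∧ spectrum ℂ Z ⊆ U ∧
    IntegrableOn (fun z : ℂ => Real.posLog ‖resolvent Z z‖) U) ∨
  (∃ Γ : Set ℂ, RectifiableCurve Γ ∧ spectrum ℂ Z ⊆ Γ ∧ ∃ (C : ℝ) (A : ℕ),
    ∀ z, z ∉ Γ → infDist z Γ ≤ 1 → ‖resolvent Z z‖ ≤ Real.exp (C / infDist z Γ ^ A))

/-- Condition (b): a positive power of the essential norm of the resolvent is integrable near the spectrum, or
the spectrum is on a rectifiable curve and the essential norm of the resolvent grows polynomially at it. -/
def EssGrowth {H : Type} [NormedAddCommGroup H] [InnerProductSpace ℂ H] (Z : H →L[ℂ] H) : Prop :=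
  (∃ U : Set ℂ, IsOpen U ∧ spectrum ℂ Z ⊆ U ∧ ∃ τ : ℝ, 0 < τ ∧
    IntegrableOn (fun z : ℂ => essNorm (resolvent Z z) ^ τ) U) ∨
  (∃ Γ : Set ℂ, RectifiableCurve Γ ∧ spectrum ℂ Z ⊆ Γ ∧ ∃ (C : ℝ) (k : ℕ),
    ∀ z, z ∉ Γ → infDist z Γ ≤ 1 → essNorm (resolvent Z z) ≤ C / infDist z Γ ^ k)

/-- `Z` is quasi-similar to a normal operator (in a weak sense): `X Z = N X` and `Z Y = Y N` with an
injective `X` and a `Y` with dense range, `N` normal on some Hilbert space. -/
def QuasiSimilarToNormal {H : Type} [NormedAddCommGroup H] [InnerProductSpace ℂ H]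
    [CompleteSpace H] (Z : H →L[ℂ] H) : Prop :=
  ∃ (G : Type) (_ : NormedAddCommGroup G) (_ : InnerProductSpace ℂ G) (_ : CompleteSpace G)
    (N : G →L[ℂ] G) (X : H →L[ℂ] G) (Y : G →L[ℂ] H), IsStarNormal N ∧ Function.Injective X ∧
      DenseRange Y ∧ X.comp Z = N.comp X ∧ Z.comp Y = Y.comp N

/-- an operator satisfying both conditions in the bicommutant of a reductive operator is normal -/
theorem growth_normal {H : Type} [NormedAddCommGroup H] [InnerProductSpace ℂ H] [CompleteSpace H]
    {T Z : H →L[ℂ] H} (hred : Reductive T)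
    (hZ : ∀ Q : H →L[ℂ] H, Q * T = T * Q → Q * Z = Z * Q)
    (h0 : volume (spectrum ℂ Z) = 0) (ha : LogGrowth Z) (hb : EssGrowth Z) : IsStarNormal Z := by
  have ha' : Pool.Agent.J4.H86.CR.Grows Z := by
    rcases ha with h | ⟨Γ, ⟨γ, L, hγ, rfl⟩, hs, C, A, hCA⟩
    · exact Or.inl h
    · exact Or.inr ⟨γ, L, hγ, hs, C, A, hCA⟩
  have hg : ∀ᵐ z ∂(volume : Measure ℂ), ∃ K : H →L[ℂ] H, IsCompactOperator K ∧
      ‖resolvent Z z - K‖ ≤ Pool.Agent.J4.H86.CR.essNorm (resolvent Z z) + 1 :=
    Filter.Eventually.of_forall fun z => Pool.Agent.J4.H86.CR.exists_ess _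
  have hC : Pool.Agent.J4.H86.CR.Cent {Q : H →L[ℂ] H | Q * T = T * Q} Z :=
    ⟨(hZ T rfl).symm, fun Q hQ => hZ Q hQ⟩
  refine Pool.Agent.W706.HIR.isStarNormal_of_sc ?_
  rcases hb with ⟨U, hU, hsU, τ, hτ, hI⟩ | ⟨Γ, ⟨γ, L, hγ, rfl⟩, hs, C, k, hCk⟩
  · exact Pool.Agent.J4.H86.CR.generalLog (Pool.Agent.J4.H86.CR.rs_comm hred) hC h0 ha'
      (lt_min hτ one_pos) (min_le_right _ _) _ hg
      (Pool.Agent.J4.H86.CR.ess_integrable Z U hU hsU τ hτ hI)
  · have hσ1 : (1 : ℝ) / (2 * ((k:ℝ) + 1)) ≤ 1 := by
      rw [div_le_one (by positivity)]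
      have : (0:ℝ) ≤ k := Nat.cast_nonneg k
      linarith
    exact Pool.Agent.J4.H86.CR.generalLog (Pool.Agent.J4.H86.CR.rs_comm hred) hC h0 ha'
      (by positivity) hσ1 _ hg
      (Pool.Agent.J4.H86.CR.ess_curve Z γ L hγ hs C k hCk)

/-- **Theorem.** Let `T` be reductive and let `T ^ n + ∑ j, Z j * T ^ j` (sum over `j < n`) be compact, where
every `Z j` commutes with all operators commuting with `T`, and every `Z j` has a null spectrum, satisfies
`LogGrowth` and `EssGrowth`, or is quasi-similar to a normal operator. Then `T` is normal. -/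
theorem result (H : Type) [NormedAddCommGroup H] [InnerProductSpace ℂ H] [CompleteSpace H]
    (T : H →L[ℂ] H) (hred : Reductive T) (n : ℕ) (Z : Fin n → (H →L[ℂ] H))
    (hZ : ∀ j, ∀ Q : H →L[ℂ] H, Q * T = T * Q → Q * Z j = Z j * Q)
    (hc : ∀ j, (volume (spectrum ℂ (Z j)) = 0 ∧ LogGrowth (Z j) ∧ EssGrowth (Z j)) ∨
      QuasiSimilarToNormal (Z j))
    (hK : IsCompactOperator (T ^ n + ∑ j : Fin n, Z j * T ^ (j : ℕ) : H →L[ℂ] H)) :
    IsStarNormal T := by
  refine H307R3.RO.main T hred n Z (fun j S hS => hZ j S hS) (fun j => ?_) hK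
  rcases hc j with ⟨h0, ha, hb⟩ | h
  · exact ⟨H, inferInstance, inferInstance, inferInstance, Z j, 1, 1,
      growth_normal hred (hZ j) h0 ha hb,
      Function.injective_id, denseRange_id, rfl, rfl⟩
  · exact h

end Pool.Agent.J4.H86.Old.ReductiveEssentialGrowth
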